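import Pool.Agent.MP_a69704_mp.Upper

open MeasureTheory Set
open Pool.Agent.MP_a69704_mp

namespace Pool.Agent.Results.MP_a69704_mp.NeverConvex

lemma nonempty_params : Nonempty Params :=
  ⟨{ p := 5 / 3, A := 1, γ := 1, C := 1, k := 1, R := fun _ => 0, z := fun _ => 1,
     p_gt := by norm_num, A_pos := one_pos, γ_pos := one_pos, C_pos := one_pos, k_pos := le_rfl,
     R_inj := Function.injective_of_subsingleton _, z_pos := fun _ => one_pos }⟩

/-- For every choice of the parameters and nuclei the TFDW energy `lam ↦ E lam` is not convex on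
`[0, ∞)`; it is not even convex on any interval `[0, Λ]` with `Λ > 0`. The sets whose infimum
defines `E` are nonempty and bounded below. -/
theorem result : Nonempty Params ∧ ∀ S : Params,
    (∀ lam, 0 ≤ lam → (S.energies lam).Nonempty ∧ BddBelow (S.energies lam)) ∧
    ¬ ConvexOn ℝ (Ici 0) S.E ∧ ∀ Λ, 0 < Λ → ¬ ConvexOn ℝ (Icc 0 Λ) S.E :=
  ⟨nonempty_params, fun S =>
    ⟨fun lam hlam => ⟨nonempty_energies S hlam, bddBelow_energies S lam⟩,
      fun h => not_convexOn S one_pos (h.subset Icc_subset_Ici_self (convex_Icc 0 1)),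
      fun _ hΛ => not_convexOn S hΛ⟩⟩

end Pool.Agent.Results.MP_a69704_mp.NeverConvex
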